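import Pool.Agent.Y316.SD.Nbr

set_option autoImplicit false

/-!
# Star discrepancy in every dimension: job A2
-/

namespace Pool.Agent.Y316.SD

open Finset Pool.Agent.H935R2.PS Pool.Agent.Y258

theorem not_bd_of_not_bdP {q : ℕ} {ι : Type} [Fintype ι] {D K0 : ℕ} (h : ι → ZMod q)
    (h0 : ∀ a, h a ≠ 0) (hB : ¬ BdP D K0 h) : ¬ Bd D K0 h :=
  fun h1 => hB ⟨h, h0, fun _ _ => mul_comm _ _, h1⟩

open Classical in
/-- (A2) -/
theorem A2_of_A1 : St_A1 → St_A2 := by
  intro hA1 κ hκ
  obtain ⟨C, hC⟩ := nbr hA1 κ hκ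
  refine ⟨C, ?_⟩
  intro q _ hS hq ι _ _ hι D K0 hD1 hDκ hK0
  have hmain := hC q hS hq ι hι D K0 hDκ hK0
    (fun b => if ∑ a, b a + K0 ≤ D * La q then 1 else 0)
    (fun b => by split_ifs <;> norm_num)
    (fun b => by split_ifs <;> norm_num)
    (fun b => by
      split_ifs with h1
      · rw [one_mul]
        exact pow_le_pow_right₀ (by norm_num) (by omega)
      · rw [zero_mul]
        positivity)
    ((univ : Finset (ι → ZMod q)).filter (fun h => (∀ a, h a ≠ 0) ∧ ¬ BdP D K0 h ∧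
    ∃ c : ZMod q, c ≠ 0 ∧ Bd D K0 (fun a => c * h a)))
    (fun h hh => (mem_filter.mp hh).2.1)
    (fun h hh => not_bd_of_not_bdP h (mem_filter.mp hh).2.1 (mem_filter.mp hh).2.2.1)
    (fun _ => 1) (fun _ _ => zero_le_one) (fun _ _ => le_refl _)
    (fun h hh => by
      obtain ⟨-, h0, hB, c, hc, hcB⟩ := mem_filter.mp hh
      have hcm : c ∈ (univ : Finset (ZMod q)).filter
          (fun c => c ≠ 0 ∧ ¬ Prl h (fun a => c * h a)) := by
        rw [mem_filter]
        refine ⟨mem_univ _, hc, fun hP => hB ⟨fun a => c * h a, fun a => mul_ne_zero hc (h0 a),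
          hP, hcB⟩⟩
      have h1 : (fun b : ι → ℕ => if ∑ a, b a + K0 ≤ D * La q then (1:ℝ) else 0)
          (fun a => dl (c * h a)) = 1 := if_pos hcB
      refine h1.symm.le.trans ?_
      exact single_le_sum (f := fun c : ZMod q =>
        (fun b : ι → ℕ => if ∑ a, b a + K0 ≤ D * La q then (1:ℝ) else 0) (fun a => dl (c * h a)))
        (fun c _ => by dsimp only; split_ifs <;> norm_num) hcm)
  simpa only [mul_one] using hmain

end Pool.Agent.Y316.SD
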