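import Pool.Agent.Y316.SD.Nbr

set_option autoImplicit false

/-!
# Star discrepancy in every dimension: job A3
-/

namespace Pool.Agent.Y316.SD

open Finset Pool.Agent.H935R2.PS Pool.Agent.Y258

/-- primitive decomposition of an integer vector -/
theorem exists_prim {ι : Type} [Fintype ι] (w : ι → ℤ) (a0 : ι) (hw : w a0 ≠ 0) :
    ∃ (g : ℕ) (v x : ι → ℤ), 1 ≤ g ∧ (∀ a, w a = g * v a) ∧ ∑ a, x a * v a = 1 := by
  obtain ⟨g0, hg0⟩ := IsPrincipalIdealRing.principal (Ideal.span (Set.range w))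
  have h1 : g0 ∈ Ideal.span (Set.range w) := by
    rw [hg0]
    exact Submodule.mem_span_singleton_self g0
  rw [Ideal.mem_span_range_iff_exists_fun] at h1
  obtain ⟨x, hx⟩ := h1
  have h2 : ∀ a, ∃ v' : ℤ, w a = g0 * v' := by
    intro a
    have h3 : w a ∈ Ideal.span (Set.range w) := Ideal.subset_span ⟨a, rfl⟩
    rw [hg0, Submodule.mem_span_singleton] at h3
    obtain ⟨y, hy⟩ := h3
    exact ⟨y, by rw [← hy, smul_eq_mul, mul_comm]⟩
  choose v' hv' using h2
  have hg00 : g0 ≠ 0 := by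
    rintro rfl
    apply hw
    rw [hv' a0, zero_mul]
  have h4 : ∑ a, x a * v' a = 1 := by
    have h5 : g0 * ∑ a, x a * v' a = g0 * 1 := by
      rw [mul_one, mul_sum]
      conv_rhs => rw [← hx]
      refine sum_congr rfl fun a _ => ?_
      rw [hv' a]
      ring
    exact mul_left_cancel₀ hg00 h5
  have hs : Int.sign g0 * Int.sign g0 = 1 := by
    rcases lt_or_gt_of_ne hg00 with h | h
    · rw [Int.sign_eq_neg_one_of_neg h]
      norm_num
    · rw [Int.sign_eq_one_of_pos h]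
      norm_num
  refine ⟨g0.natAbs, fun a => Int.sign g0 * v' a, fun a => Int.sign g0 * x a, ?_, ?_, ?_⟩
  · exact Int.natAbs_pos.mpr hg00
  · intro a
    rw [hv' a, ← mul_assoc, mul_comm ((g0.natAbs : ℕ) : ℤ), Int.sign_mul_natAbs]
  · rw [← h4]
    refine sum_congr rfl fun a _ => ?_
    calc Int.sign g0 * x a * (Int.sign g0 * v' a) = (Int.sign g0 * Int.sign g0) * (x a * v' a) := by
          ring
      _ = x a * v' a := by rw [hs, one_mul]

/-- sums of inverse squares of natural numbers -/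
theorem sum_inv_sq_nat (F : Finset ℕ) (hF : 0 ∉ F) : ∑ n ∈ F, (1:ℝ) / (n:ℝ) ^ 2 ≤ 2 := by
  have h1 : F ⊆ Ioo 0 (F.sup id + 1) := by
    intro n hn
    rw [mem_Ioo]
    have h2 : n ≤ F.sup id := le_sup (f := id) hn
    have h3 : n ≠ 0 := fun h => hF (h ▸ hn)
    omega
  refine (sum_le_sum_of_subset_of_nonneg h1 (fun n _ _ => by positivity)).trans ?_
  have h2 := sum_Ioo_inv_sq_le (α := ℝ) 0 (F.sup id + 1)
  simp only [one_div]
  norm_num at h2 ⊢
  exact h2

/-- sums of inverse squares of integers -/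
theorem sum_inv_sq_int {α : Type} (T : Finset α) (G : α → ℤ) (hG0 : ∀ c ∈ T, G c ≠ 0)
    (hG : Set.InjOn G T) : ∑ c ∈ T, (1:ℝ) / (G c : ℝ) ^ 2 ≤ 4 := by
  classical
  have hmap : ∀ c ∈ T, (G c).natAbs ∈ T.image (fun c => (G c).natAbs) := fun c hc =>
    mem_image_of_mem _ hc
  rw [← Finset.sum_fiberwise_of_maps_to hmap]
  have h1 : ∀ n ∈ T.image (fun c => (G c).natAbs),
      ∑ c ∈ T.filter (fun c => (G c).natAbs = n), (1:ℝ) / (G c : ℝ) ^ 2 ≤ 2 * (1 / (n:ℝ) ^ 2) := by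
    intro n _
    have h2 : ∀ c ∈ T.filter (fun c => (G c).natAbs = n), (1:ℝ) / (G c : ℝ) ^ 2 = 1 / (n:ℝ) ^ 2 := by
      intro c hc
      have h3 := (mem_filter.mp hc).2
      have h4 : ((G c : ℤ) : ℝ) ^ 2 = (n:ℝ) ^ 2 := by
        have h5 : (G c) ^ 2 = (n : ℤ) ^ 2 := by
          rw [← h3, Int.natCast_natAbs, sq_abs]
        exact_mod_cast h5
      rw [h4]
    rw [sum_congr rfl h2, sum_const, nsmul_eq_mul]
    refine mul_le_mul_of_nonneg_right ?_ (by positivity)
    have h3 : (T.filter (fun c => (G c).natAbs = n)).card ≤ 2 := by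
      have h4 : ((T.filter (fun c => (G c).natAbs = n)).image G) ⊆ {(n:ℤ), -(n:ℤ)} := by
        intro z hz
        obtain ⟨c, hc, rfl⟩ := mem_image.mp hz
        have h5 := (mem_filter.mp hc).2
        rw [mem_insert, mem_singleton]
        omega
      rw [← card_image_of_injOn (hG.mono (by
        intro c hc
        exact (mem_filter.mp (mem_coe.mp hc)).1))]
      exact (card_le_card h4).trans card_le_two
    exact_mod_cast h3
  refine (sum_le_sum h1).trans ?_
  rw [← mul_sum]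
  have h2 := sum_inv_sq_nat (T.image (fun c => (G c).natAbs)) (by
    intro h
    obtain ⟨c, hc, hc0⟩ := mem_image.mp h
    exact hG0 c hc (Int.natAbs_eq_zero.mp hc0))
  linarith

section

variable {q : ℕ} [Fact q.Prime] {ι : Type} [Fintype ι] [DecidableEq ι]

theorem two_nn_lt (hq : 3 ≤ q) (x : ZMod q) : 2 * nn x < q := by
  have h1 := nn_le x
  have h2 : q % 2 = 1 := by
    rcases (Fact.out : q.Prime).eq_two_or_odd with h | h
    · omega
    · exact h
  omega

theorem nn_intCast (z : ℤ) (h : 2 * z.natAbs < q) : nn (z : ZMod q) = z.natAbs := by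
  unfold nn
  rw [valMinAbs_intCast z h]

omit [DecidableEq ι] in
theorem prod_div_const (f : ι → ℝ) (A : ℝ) : ∏ a, (A * f a) = A ^ Fintype.card ι * ∏ a, f a := by
  rw [prod_mul_distrib, prod_const, card_univ]

omit [DecidableEq ι] in
open Classical in
/-- the parallel neighbours of one vector -/
theorem par_sum (hq : 3 ≤ q) (hκ : 2 ≤ Fintype.card ι) (h : ι → ZMod q) (h0 : ∀ a, h a ≠ 0)
    (g : ℕ) (v x : ι → ℤ) (hg : 1 ≤ g) (hv : ∀ a, (h a).valMinAbs = g * v a)
    (hx : ∑ a, x a * v a = 1) :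
    ∑ c ∈ (univ : Finset (ZMod q)).filter (fun c => c ≠ 0 ∧ Prl h (fun a => c * h a)),
      (1:ℝ) / 2 ^ (∑ a, dl (c * h a)) ≤
    2 ^ Fintype.card ι * 4 * wt (fun a => ((v a : ℤ) : ZMod q)) := by
  have hv0 : ∀ a, v a ≠ 0 := by
    intro a h1
    apply h0 a
    rw [← ZMod.valMinAbs_eq_zero, hv a, h1, mul_zero]
  have hnnv : ∀ a, nn (h a) = g * (v a).natAbs := by
    intro a
    unfold nn
    rw [hv a, Int.natAbs_mul, Int.natAbs_natCast]
  have hvlt : ∀ a, 2 * (v a).natAbs < q := by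
    intro a
    have h1 := two_nn_lt hq (h a)
    rw [hnnv a] at h1
    have h2 : (v a).natAbs ≤ g * (v a).natAbs := Nat.le_mul_of_pos_left _ hg
    omega
  set T := (univ : Finset (ZMod q)).filter (fun c => c ≠ 0 ∧ Prl h (fun a => c * h a)) with hT
  set G : ZMod q → ℤ := fun c => ∑ a, x a * (c * h a).valMinAbs with hG
  have hgz : (g:ℤ) ≠ 0 := by exact_mod_cast (by omega : g ≠ 0)
  have hGv : ∀ c ∈ T, ∀ b, (c * h b).valMinAbs = G c * v b := by
    intro c hc b
    have hP := (mem_filter.mp hc).2.2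
    have h1 : ∀ a, v a * (c * h b).valMinAbs = v b * (c * h a).valMinAbs := by
      intro a
      have h2 := hP a b
      dsimp only at h2
      rw [hv a, hv b, mul_assoc, mul_assoc] at h2
      exact mul_left_cancel₀ hgz h2
    calc (c * h b).valMinAbs = (∑ a, x a * v a) * (c * h b).valMinAbs := by rw [hx, one_mul]
      _ = ∑ a, x a * (v b * (c * h a).valMinAbs) := by
          rw [sum_mul]
          exact sum_congr rfl fun a _ => by rw [mul_assoc, h1 a]
      _ = G c * v b := by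
          rw [hG, sum_mul]
          exact sum_congr rfl fun a _ => by ring
  obtain ⟨a0⟩ : Nonempty ι := Fintype.card_pos_iff.mp (by omega)
  have hG0 : ∀ c ∈ T, G c ≠ 0 := by
    intro c hc h1
    have h2 := hGv c hc a0
    rw [h1, zero_mul, ZMod.valMinAbs_eq_zero] at h2
    exact mul_ne_zero (mem_filter.mp hc).2.1 (h0 a0) h2
  have hGi : Set.InjOn G T := by
    intro c hc c' hc' hcc
    have h1 := hGv c (mem_coe.mp hc) a0
    have h2 := hGv c' (mem_coe.mp hc') a0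
    rw [← hcc, ← h1] at h2
    have h3 := ZMod.injective_valMinAbs h2
    exact (mul_right_cancel₀ (h0 a0) h3).symm
  have key : ∀ c ∈ T, (1:ℝ) / 2 ^ (∑ a, dl (c * h a)) ≤
      2 ^ Fintype.card ι * wt (fun a => ((v a : ℤ) : ZMod q)) * (1 / (G c : ℝ) ^ 2) := by
    intro c hc
    have hc0 := (mem_filter.mp hc).2.1
    have hGc : (0:ℝ) < |(G c : ℝ)| := abs_pos.mpr (by exact_mod_cast hG0 c hc)
    have h1 : (1:ℝ) / 2 ^ (∑ a, dl (c * h a)) = ∏ a, (1 / 2 ^ dl (c * h a)) := by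
      rw [← prod_pow_eq_pow_sum, one_div, ← prod_inv_distrib]
      exact prod_congr rfl fun a _ => by rw [one_div]
    rw [h1]
    have h2 : ∀ a, (1:ℝ) / 2 ^ dl (c * h a) ≤
        (2 * (1 / |(G c : ℝ)|)) * (1 / (nn ((v a : ℤ) : ZMod q) : ℝ)) := by
      intro a
      have h3 : nn (c * h a) = (G c).natAbs * nn ((v a : ℤ) : ZMod q) := by
        rw [nn_intCast (v a) (hvlt a)]
        unfold nn
        rw [hGv c hc a, Int.natAbs_mul]
      have h4 : nn (c * h a) < 2 ^ (dl (c * h a) + 1) := nn_lt_two_pow _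
      have h5 : ((G c).natAbs : ℝ) = |(G c : ℝ)| := by
        rw [Nat.cast_natAbs, Int.cast_abs]
      have h6 : |(G c : ℝ)| * (nn ((v a : ℤ) : ZMod q) : ℝ) ≤ 2 ^ dl (c * h a) * 2 := by
        rw [← h5]
        rw [h3, pow_succ] at h4
        exact_mod_cast h4.le
      have h7 : 0 < (nn ((v a : ℤ) : ZMod q) : ℝ) := by
        rw [nn_intCast (v a) (hvlt a)]
        exact_mod_cast Int.natAbs_pos.mpr (hv0 a)
      have h8 : (2 * (1 / |(G c : ℝ)|)) * (1 / (nn ((v a : ℤ) : ZMod q) : ℝ)) =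
          2 / (|(G c : ℝ)| * (nn ((v a : ℤ) : ZMod q) : ℝ)) := by
        field_simp
      rw [h8, div_le_div_iff₀ (by positivity) (by positivity)]
      linarith
    refine (prod_le_prod (fun a _ => by positivity) (fun a _ => h2 a)).trans ?_
    rw [prod_div_const, mul_pow]
    have h9 : (1 / |(G c : ℝ)|) ^ Fintype.card ι ≤ 1 / (G c : ℝ) ^ 2 := by
      have h10 : (1:ℝ) ≤ |(G c : ℝ)| := by
        have := Int.one_le_abs (hG0 c hc)
        exact_mod_cast this
      have h11 : (1 / |(G c : ℝ)|) ≤ 1 := by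
        rw [div_le_one hGc]
        exact h10
      calc (1 / |(G c : ℝ)|) ^ Fintype.card ι ≤ (1 / |(G c : ℝ)|) ^ 2 :=
            pow_le_pow_of_le_one (by positivity) h11 hκ
        _ = 1 / (G c : ℝ) ^ 2 := by rw [one_div_pow, sq_abs]
    have hwt : (0:ℝ) ≤ ∏ a, (1 / (nn ((v a : ℤ) : ZMod q) : ℝ)) :=
      prod_nonneg fun a _ => by positivity
    have h12 : (2:ℝ) ^ Fintype.card ι * (1 / |(G c : ℝ)|) ^ Fintype.card ι *
        ∏ a, (1 / (nn ((v a : ℤ) : ZMod q) : ℝ)) ≤ 2 ^ Fintype.card ι * (1 / (G c : ℝ) ^ 2) *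
        ∏ a, (1 / (nn ((v a : ℤ) : ZMod q) : ℝ)) := by
      gcongr
    refine h12.trans (le_of_eq ?_)
    unfold wt
    ring
  refine (sum_le_sum key).trans ?_
  rw [← mul_sum]
  have h1 := sum_inv_sq_int T G hG0 hGi
  have h2 : (0:ℝ) ≤ 2 ^ Fintype.card ι * wt (fun a => ((v a : ℤ) : ZMod q)) := by
    have := wt_nonneg (fun a => ((v a : ℤ) : ZMod q))
    positivity
  calc 2 ^ Fintype.card ι * wt (fun a => ((v a : ℤ) : ZMod q)) * ∑ c ∈ T, 1 / (G c : ℝ) ^ 2
      ≤ 2 ^ Fintype.card ι * wt (fun a => ((v a : ℤ) : ZMod q)) * 4 :=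
        mul_le_mul_of_nonneg_left h1 h2
    _ = _ := by ring

open Classical in
/-- the sum of the squares of the weights -/
theorem wt_sq_sum (hq : 2 ≤ q) (hκ : 2 ≤ Fintype.card ι) (D K0 : ℕ) :
    ∑ h ∈ (univ : Finset (ι → ZMod q)).filter (fun h => (∀ a, h a ≠ 0) ∧ ¬ Bd D K0 h),
      wt h ^ 2 * (2 ^ (D * La q) / 2 ^ K0) ≤
    2 ^ Fintype.card ι * 2 * (La q : ℝ) ^ (Fintype.card ι - 1) := by
  set L := La q with hL
  have hmap : ∀ h ∈ (univ : Finset (ι → ZMod q)).filter (fun h => (∀ a, h a ≠ 0) ∧ ¬ Bd D K0 h),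
      (fun a => dl (h a)) ∈ (Bx ι L).filter (fun b => D * L < ∑ i, b i + K0) := by
    intro h hh
    obtain ⟨-, h0, hB⟩ := mem_filter.mp hh
    rw [mem_filter, mem_Bx]
    refine ⟨fun a => dl_lt hq _ (h0 a), ?_⟩
    unfold Bd sz at hB
    exact not_le.mp hB
  rw [← Finset.sum_fiberwise_of_maps_to hmap]
  have h1 : ∀ b ∈ (Bx ι L).filter (fun b => D * L < ∑ i, b i + K0),
      ∑ h ∈ ((univ : Finset (ι → ZMod q)).filter (fun h => (∀ a, h a ≠ 0) ∧ ¬ Bd D K0 h)).filter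
        (fun h => (fun a => dl (h a)) = b), wt h ^ 2 * (2 ^ (D * L) / 2 ^ K0) ≤
      2 ^ Fintype.card ι * (1/2) ^ (∑ i, b i + K0 - D * L) := by
    intro b hb
    have hE := (mem_filter.mp hb).2
    have h2 : ∀ h ∈ ((univ : Finset (ι → ZMod q)).filter
        (fun h => (∀ a, h a ≠ 0) ∧ ¬ Bd D K0 h)).filter (fun h => (fun a => dl (h a)) = b),
        wt h ^ 2 * (2 ^ (D * L) / 2 ^ K0) ≤ (1 / 2 ^ (∑ a, b a)) ^ 2 * (2 ^ (D * L) / 2 ^ K0) := by
      intro h hh
      obtain ⟨h3, h4⟩ := mem_filter.mp hh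
      obtain ⟨-, h0, hB⟩ := mem_filter.mp h3
      have h5 := wt_le h h0
      have h6 := wt_nonneg h
      rw [← h4]
      gcongr
    refine (sum_le_sum h2).trans ?_
    rw [sum_const, nsmul_eq_mul]
    have h3 : ((((univ : Finset (ι → ZMod q)).filter
        (fun h => (∀ a, h a ≠ 0) ∧ ¬ Bd D K0 h)).filter
        (fun h => (fun a => dl (h a)) = b)).card : ℝ) ≤
        2 ^ Fintype.card ι * 2 ^ (∑ a, b a) := by
      have h4 : (((univ : Finset (ι → ZMod q)).filter
        (fun h => (∀ a, h a ≠ 0) ∧ ¬ Bd D K0 h)).filter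
        (fun h => (fun a => dl (h a)) = b)) ⊆
        (univ : Finset (ι → ZMod q)).filter (fun h => ∀ a, h a ≠ 0 ∧ dl (h a) = b a) := by
        intro h hh
        obtain ⟨h3, h4⟩ := mem_filter.mp hh
        obtain ⟨-, h0, hB⟩ := mem_filter.mp h3
        rw [mem_filter]
        exact ⟨mem_univ _, fun a => ⟨h0 a, congrFun h4 a⟩⟩
      exact_mod_cast (card_le_card h4).trans (card_box (q := q) b)
    refine (mul_le_mul_of_nonneg_right h3 (by positivity)).trans (le_of_eq ?_)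
    have h4 : (2:ℝ) ^ (D * L) * 2 ^ (∑ i, b i + K0 - D * L) = 2 ^ (∑ i, b i) * 2 ^ K0 := by
      rw [← pow_add, ← pow_add]
      congr 1
      omega
    rw [one_div_pow, mul_assoc]
    congr 1
    rw [one_div_pow, eq_div_iff (by positivity)]
    calc 2 ^ (∑ a, b a) * (1 / (2 ^ ∑ a, b a) ^ 2 * (2 ^ (D * L) / 2 ^ K0)) *
        2 ^ (∑ i, b i + K0 - D * L) = 2 ^ (∑ a, b a) * (1 / (2 ^ ∑ a, b a) ^ 2 *
          (((2:ℝ) ^ (D * L) * 2 ^ (∑ i, b i + K0 - D * L)) / 2 ^ K0)) := by ring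
      _ = 1 := by
        rw [h4]
        field_simp
  refine (sum_le_sum h1).trans ?_
  rw [← mul_sum, mul_assoc]
  refine mul_le_mul_of_nonneg_left ?_ (by positivity)
  obtain ⟨a0⟩ : Nonempty ι := Fintype.card_pos_iff.mp (by omega)
  set N := Fintype.card ι * L + K0 + 1 with hN
  have hmap2 : ∀ b ∈ (Bx ι L).filter (fun b => D * L < ∑ i, b i + K0),
      ∑ i, b i + K0 - D * L ∈ range N := by
    intro b hb
    rw [mem_filter, mem_Bx] at hb
    rw [mem_range]
    have h1 : ∑ i, b i ≤ Fintype.card ι * L := by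
      calc ∑ i, b i ≤ ∑ _i : ι, L := sum_le_sum fun i _ => (hb.1 i).le
        _ = Fintype.card ι * L := by rw [sum_const, card_univ, smul_eq_mul]
    omega
  rw [← Finset.sum_fiberwise_of_maps_to hmap2]
  have h5 : ∀ j ∈ range N, ∑ b ∈ ((Bx ι L).filter (fun b => D * L < ∑ i, b i + K0)).filter
      (fun b => ∑ i, b i + K0 - D * L = j), (1/2 : ℝ) ^ (∑ i, b i + K0 - D * L) ≤
      (L:ℝ) ^ (Fintype.card ι - 1) * (1/2) ^ j := by
    intro j _
    have h6 : ∀ b ∈ ((Bx ι L).filter (fun b => D * L < ∑ i, b i + K0)).filter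
        (fun b => ∑ i, b i + K0 - D * L = j), (1/2 : ℝ) ^ (∑ i, b i + K0 - D * L) = (1/2) ^ j := by
      intro b hb
      rw [(mem_filter.mp hb).2]
    rw [sum_congr rfl h6, sum_const, nsmul_eq_mul]
    refine mul_le_mul_of_nonneg_right ?_ (by positivity)
    have h7 : (((Bx ι L).filter (fun b => D * L < ∑ i, b i + K0)).filter
      (fun b => ∑ i, b i + K0 - D * L = j)) ⊆
      (Bx ι L).filter (fun b => ∑ i, b i = j + D * L - K0) := by
      intro b hb
      rw [mem_filter, mem_filter] at hb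
      rw [mem_filter]
      refine ⟨hb.1.1, ?_⟩
      omega
    exact_mod_cast (card_le_card h7).trans (fib1 L (j + D * L - K0) a0)
  refine (sum_le_sum h5).trans ?_
  rw [← mul_sum, mul_comm]
  refine mul_le_mul_of_nonneg_right ?_ (by positivity)
  refine (geom_le (1/2) (by norm_num) (by norm_num) N).trans ?_
  norm_num

theorem sum_product_mul_sum_aux {α β : Type} (s : Finset α) (t : Finset β) (f : α → ℝ)
    (k : β → ℝ) : (∑ a ∈ s, f a) * (∑ b ∈ t, k b) = ∑ p ∈ s ×ˢ t, f p.1 * k p.2 := by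
  rw [sum_mul_sum, ← sum_product']

open Classical in
/-- the sum over the parallel multiples -/
theorem par_total (hq : 3 ≤ q) (hκ : 2 ≤ Fintype.card ι) (D K0 : ℕ) :
    ∑ h ∈ (univ : Finset (ι → ZMod q)).filter (fun h => (∀ a, h a ≠ 0) ∧
      ∀ c : ZMod q, c ≠ 0 → ¬ Bd D K0 (fun a => c * h a)),
      wt h * ∑ c ∈ (univ : Finset (ZMod q)).filter (fun c => c ≠ 0 ∧ Prl h (fun a => c * h a)),
        (2:ℝ) ^ (D * La q) / 2 ^ (K0 + sz (fun a => c * h a)) ≤
    2 ^ Fintype.card ι * 4 * (2 * (2 ^ Fintype.card ι * 2 *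
      (La q : ℝ) ^ (Fintype.card ι - 1))) := by
  set S := (univ : Finset (ι → ZMod q)).filter (fun h => (∀ a, h a ≠ 0) ∧
      ∀ c : ZMod q, c ≠ 0 → ¬ Bd D K0 (fun a => c * h a)) with hS
  set S0 := (univ : Finset (ι → ZMod q)).filter (fun h => (∀ a, h a ≠ 0) ∧ ¬ Bd D K0 h) with hS0
  set X : ℝ := 2 ^ (D * La q) / 2 ^ K0 with hX
  have hX0 : 0 < X := by positivity
  obtain ⟨a0⟩ : Nonempty ι := Fintype.card_pos_iff.mp (by omega)
  have hch : ∀ h : ι → ZMod q, ∃ (g : ℕ) (v x : ι → ℤ), (∀ a, h a ≠ 0) →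
      (1 ≤ g ∧ (∀ a, (h a).valMinAbs = g * v a) ∧ ∑ a, x a * v a = 1) := by
    intro h
    by_cases h0 : ∀ a, h a ≠ 0
    · obtain ⟨g, v, x, hgvx⟩ := exists_prim (fun a => (h a).valMinAbs) a0
        (fun h1 => h0 a0 ((ZMod.valMinAbs_eq_zero _).mp h1))
      exact ⟨g, v, x, fun _ => hgvx⟩
    · exact ⟨0, 0, 0, fun h1 => absurd h1 h0⟩
  choose g v x hgvx using hch
  have hne : ∀ h ∈ S, ∀ a, h a ≠ 0 := fun h hh => (mem_filter.mp hh).2.1
  have hprop : ∀ h ∈ S, ∀ a, nn (h a) = g h * (v h a).natAbs ∧ v h a ≠ 0 ∧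
      2 * (v h a).natAbs < q ∧ h a = (g h : ZMod q) * ((v h a : ℤ) : ZMod q) := by
    intro h hh a
    obtain ⟨hg, hv, hx⟩ := hgvx h (hne h hh)
    have e1 : nn (h a) = g h * (v h a).natAbs := by
      unfold nn
      rw [hv a, Int.natAbs_mul, Int.natAbs_natCast]
    refine ⟨e1, ?_, ?_, ?_⟩
    · intro h1
      apply hne h hh a
      rw [← ZMod.valMinAbs_eq_zero, hv a, h1, mul_zero]
    · have h1 := two_nn_lt hq (h a)
      rw [e1] at h1
      have h2 : (v h a).natAbs ≤ g h * (v h a).natAbs := Nat.le_mul_of_pos_left _ hg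
      omega
    · conv_lhs => rw [← ZMod.coe_valMinAbs (h a), hv a]
      push_cast
      rfl
  have hglt : ∀ h ∈ S, 0 < g h ∧ g h < q := by
    intro h hh
    obtain ⟨hg, hv, hx⟩ := hgvx h (hne h hh)
    obtain ⟨e1, e2, e3, e4⟩ := hprop h hh a0
    have h1 := two_nn_lt hq (h a0)
    have h2 : g h ≤ g h * (v h a0).natAbs :=
      Nat.le_mul_of_pos_right _ (Int.natAbs_pos.mpr e2)
    refine ⟨hg, ?_⟩
    omega
  set h0 : (ι → ZMod q) → (ι → ZMod q) := fun h a => ((v h a : ℤ) : ZMod q) with hh0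
  have hterm : ∀ h ∈ S, wt h * ∑ c ∈ (univ : Finset (ZMod q)).filter
      (fun c => c ≠ 0 ∧ Prl h (fun a => c * h a)),
        (2:ℝ) ^ (D * La q) / 2 ^ (K0 + sz (fun a => c * h a)) ≤
      2 ^ Fintype.card ι * 4 * (1 / (g h : ℝ) ^ 2 * (wt (h0 h) ^ 2 * X)) := by
    intro h hh
    obtain ⟨hg, hv, hx⟩ := hgvx h (hne h hh)
    have h1 := par_sum hq hκ h (hne h hh) (g h) (v h) (x h) hg hv hx
    have h2 : ∑ c ∈ (univ : Finset (ZMod q)).filter
        (fun c => c ≠ 0 ∧ Prl h (fun a => c * h a)),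
        (2:ℝ) ^ (D * La q) / 2 ^ (K0 + sz (fun a => c * h a)) =
        X * ∑ c ∈ (univ : Finset (ZMod q)).filter
        (fun c => c ≠ 0 ∧ Prl h (fun a => c * h a)), (1:ℝ) / 2 ^ (∑ a, dl (c * h a)) := by
      rw [mul_sum]
      refine sum_congr rfl fun c _ => ?_
      rw [hX, pow_add]
      unfold sz
      field_simp
    have h3 : wt h ≤ 1 / (g h : ℝ) ^ 2 * wt (h0 h) := by
      have h4 : wt h = (1 / (g h : ℝ)) ^ Fintype.card ι * wt (h0 h) := by
        unfold wt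
        rw [← prod_div_const]
        refine prod_congr rfl fun a _ => ?_
        obtain ⟨e1, e2, e3, e4⟩ := hprop h hh a
        rw [e1, nn_intCast _ e3]
        push_cast
        rw [one_div_mul_one_div]
      rw [h4]
      refine mul_le_mul_of_nonneg_right ?_ (wt_nonneg _)
      have h5 : (1:ℝ) ≤ g h := by exact_mod_cast hg
      calc (1 / (g h : ℝ)) ^ Fintype.card ι ≤ (1 / (g h : ℝ)) ^ 2 := by
            refine pow_le_pow_of_le_one (by positivity) ?_ hκ
            rw [div_le_one (by linarith)]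
            exact h5
        _ = _ := by rw [one_div_pow]
    rw [h2]
    have h6 := wt_nonneg h
    have h7 := wt_nonneg (h0 h)
    calc wt h * (X * ∑ c ∈ (univ : Finset (ZMod q)).filter
        (fun c => c ≠ 0 ∧ Prl h (fun a => c * h a)), (1:ℝ) / 2 ^ (∑ a, dl (c * h a)))
        ≤ (1 / (g h : ℝ) ^ 2 * wt (h0 h)) * (X * (2 ^ Fintype.card ι * 4 * wt (h0 h))) := by
          refine mul_le_mul h3 (mul_le_mul_of_nonneg_left h1 hX0.le) ?_ (by positivity)
          exact mul_nonneg hX0.le (sum_nonneg fun c _ => by positivity)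
      _ = _ := by ring
  refine (sum_le_sum hterm).trans ?_
  rw [← mul_sum]
  refine mul_le_mul_of_nonneg_left ?_ (by positivity)
  have hinj : Set.InjOn (fun h : ι → ZMod q => (g h, h0 h)) S := by
    intro h hh h' hh' e
    rw [Prod.mk.injEq] at e
    funext a
    obtain ⟨-, -, -, e4⟩ := hprop h hh a
    obtain ⟨-, -, -, e4'⟩ := hprop h' hh' a
    have e5 := congrFun e.2 a
    simp only [hh0] at e5
    rw [e4, e4', e.1, e5]
  have himg : S.image (fun h : ι → ZMod q => (g h, h0 h)) ⊆ Ioo 0 q ×ˢ S0 := by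
    intro p hp
    obtain ⟨h, hh, rfl⟩ := mem_image.mp hp
    rw [mem_product, mem_Ioo]
    refine ⟨hglt h hh, ?_⟩
    have hgz : (g h : ZMod q) ≠ 0 := by
      intro h1
      rw [ZMod.natCast_eq_zero_iff] at h1
      have := Nat.le_of_dvd (hglt h hh).1 h1
      have := (hglt h hh).2
      omega
    have h1 : (fun a => (g h : ZMod q)⁻¹ * h a) = h0 h := by
      funext a
      obtain ⟨-, -, -, e4⟩ := hprop h hh a
      rw [e4, ← mul_assoc, inv_mul_cancel₀ hgz, one_mul]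
    have h2 := (mem_filter.mp hh).2.2 _ (inv_ne_zero hgz)
    rw [h1] at h2
    dsimp only
    rw [hS0, mem_filter]
    refine ⟨mem_univ _, ?_, h2⟩
    intro a h3
    have h4 : (g h : ZMod q)⁻¹ * h a = 0 := by
      rw [← h3]
      exact congrFun h1 a
    exact mul_ne_zero (inv_ne_zero hgz) (hne h hh a) h4
  have hsum : ∑ h ∈ S, 1 / (g h : ℝ) ^ 2 * (wt (h0 h) ^ 2 * X) =
      ∑ p ∈ S.image (fun h : ι → ZMod q => (g h, h0 h)), 1 / (p.1 : ℝ) ^ 2 * (wt p.2 ^ 2 * X) := by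
    rw [sum_image hinj]
  rw [hsum]
  refine (sum_le_sum_of_subset_of_nonneg himg (fun p _ _ => by positivity)).trans ?_
  have h1 := sum_inv_sq_nat (Ioo 0 q) (by simp)
  have h2 := wt_sq_sum (q := q) (ι := ι) (by omega) hκ D K0
  rw [← sum_product_mul_sum_aux (Ioo 0 q) S0 (fun n : ℕ => 1 / (n : ℝ) ^ 2)
    (fun h => wt h ^ 2 * X)]
  exact mul_le_mul h1 h2 (sum_nonneg fun h _ => by positivity) (by norm_num)

end

theorem sq_le_two_pow (u : ℕ) : u ^ 2 ≤ 2 * 2 ^ u := by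
  induction u with
  | zero => norm_num
  | succ n ih =>
    by_cases h : n < 3
    · interval_cases n <;> norm_num
    · push Not at h
      rw [pow_succ 2 n]
      nlinarith

open Classical in
/-- (A3) -/
theorem A3_of_A1 : St_A1 → St_A3 := by
  intro hA1 κ hκ
  obtain ⟨C, hC⟩ := nbr hA1 κ hκ
  refine ⟨4 * C + 16 * 4 ^ κ + 3, ?_⟩
  intro q _ hSuit hq ι _ _ hι D K0 hD1 hDκ hK0
  have hq3 : 3 ≤ q := by omega
  set L := La q with hL
  have hL1 : 1 ≤ L := Nat.log_pos one_lt_two (by omega)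
  set S := (univ : Finset (ι → ZMod q)).filter (fun h => (∀ a, h a ≠ 0) ∧
      ∀ c : ZMod q, c ≠ 0 → ¬ Bd D K0 (fun a => c * h a)) with hS
  have hsplit : ∀ h ∈ S, wt h * min 1 (∑ c ∈ (univ : Finset (ZMod q)).filter (fun c => c ≠ 0),
        (2:ℝ) ^ (D * L) / 2 ^ (K0 + sz (fun a => c * h a))) ≤
      wt h * min 1 (∑ c ∈ (univ : Finset (ZMod q)).filter
        (fun c => c ≠ 0 ∧ ¬ Prl h (fun a => c * h a)),
        (2:ℝ) ^ (D * L) / 2 ^ (K0 + sz (fun a => c * h a))) +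
      wt h * ∑ c ∈ (univ : Finset (ZMod q)).filter (fun c => c ≠ 0 ∧ Prl h (fun a => c * h a)),
        (2:ℝ) ^ (D * L) / 2 ^ (K0 + sz (fun a => c * h a)) := by
    intro h _
    rw [← mul_add]
    refine mul_le_mul_of_nonneg_left ?_ (wt_nonneg h)
    have h1 := sum_filter_add_sum_filter_not ((univ : Finset (ZMod q)).filter (fun c => c ≠ 0))
      (fun c => Prl h (fun a => c * h a))
      (fun c => (2:ℝ) ^ (D * L) / 2 ^ (K0 + sz (fun a => c * h a)))
    rw [filter_filter, filter_filter] at h1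
    rw [← h1]
    have h2 : 0 ≤ ∑ c ∈ (univ : Finset (ZMod q)).filter
        (fun c => c ≠ 0 ∧ Prl h (fun a => c * h a)),
        (2:ℝ) ^ (D * L) / 2 ^ (K0 + sz (fun a => c * h a)) :=
      sum_nonneg fun c _ => by positivity
    rcases min_cases 1 (∑ c ∈ (univ : Finset (ZMod q)).filter
        (fun c => c ≠ 0 ∧ ¬ Prl h (fun a => c * h a)),
        (2:ℝ) ^ (D * L) / 2 ^ (K0 + sz (fun a => c * h a))) with ⟨h3, _⟩ | ⟨h3, _⟩
    · rw [h3]
      exact (min_le_left _ _).trans (by linarith)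
    · rw [h3]
      exact (min_le_right _ _).trans (by linarith)
  refine (sum_le_sum hsplit).trans ?_
  rw [sum_add_distrib]
  have hpar := par_total (q := q) (ι := ι) hq3 (by omega) D K0
  rw [hι] at hpar
  have hnp : ∑ h ∈ S, wt h * min 1 (∑ c ∈ (univ : Finset (ZMod q)).filter
        (fun c => c ≠ 0 ∧ ¬ Prl h (fun a => c * h a)),
        (2:ℝ) ^ (D * L) / 2 ^ (K0 + sz (fun a => c * h a))) ≤
      C * (L : ℝ) ^ (κ - 2) * (uu q : ℝ) ^ 2 := by
    refine hC q hSuit (by omega) ι hι D K0 hDκ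
      (le_trans (Nat.mul_le_mul_right _ (by omega)) hK0)
      (fun b => if D * L < K0 + ∑ a, b a then (2:ℝ) ^ (D * L) / 2 ^ (K0 + ∑ a, b a) else 0)
      ?_ ?_ ?_ S (fun h hh => (mem_filter.mp hh).2.1) ?_ _ ?_ ?_ ?_
    · intro b
      split_ifs <;> positivity
    · intro b
      split_ifs with h1
      · rw [div_le_one (by positivity)]
        exact pow_le_pow_right₀ (by norm_num) h1.le
      · norm_num
    · intro b
      split_ifs with h1
      · rw [div_mul_cancel₀ _ (by positivity)]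
      · rw [zero_mul]
        positivity
    · intro h hh
      have h1 := (mem_filter.mp hh).2.2 1 one_ne_zero
      simpa only [one_mul] using h1
    · intro h _
      exact le_min zero_le_one (sum_nonneg fun c _ => by positivity)
    · intro h _
      exact min_le_left _ _
    · intro h hh
      refine (min_le_right _ _).trans (sum_le_sum fun c hc => ?_)
      have h1 := (mem_filter.mp hh).2.2 c (mem_filter.mp hc).2.1
      unfold Bd at h1
      unfold sz at h1 ⊢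
      rw [if_pos (by rw [hL]; rw [not_le] at h1; rw [add_comm]; exact h1)]
  have hu : ((uu q : ℕ) : ℝ) ^ 2 ≤ 4 * L := by
    have h1 := sq_le_two_pow (uu q)
    have h2 := uu_le q (by omega)
    have h3 : uu q ^ 2 ≤ 4 * La q := by omega
    exact_mod_cast h3
  have hLk : (L:ℝ) ^ (κ - 2) * L = (L:ℝ) ^ (κ - 1) := by
    rw [← pow_succ]
    congr 1
    omega
  have e1 : C * (L : ℝ) ^ (κ - 2) * (uu q : ℝ) ^ 2 ≤ 4 * C * (L:ℝ) ^ (κ - 1) := by
    rw [← hLk]
    calc C * (L : ℝ) ^ (κ - 2) * (uu q : ℝ) ^ 2 ≤ C * (L : ℝ) ^ (κ - 2) * (4 * L) :=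
          mul_le_mul_of_nonneg_left hu (by positivity)
      _ = _ := by ring
  have e2 : (2:ℝ) ^ κ * 4 * (2 * (2 ^ κ * 2 * (L : ℝ) ^ (κ - 1))) =
      16 * 4 ^ κ * (L : ℝ) ^ (κ - 1) := by
    have h4 : (4:ℝ) ^ κ = 2 ^ κ * 2 ^ κ := by rw [← mul_pow]; norm_num
    rw [h4]
    ring
  rw [e2] at hpar
  have e3 : (0:ℝ) ≤ (L:ℝ) ^ (κ - 1) := by positivity
  push_cast
  calc _ ≤ 4 * C * (L:ℝ) ^ (κ - 1) + 16 * 4 ^ κ * (L : ℝ) ^ (κ - 1) :=
        add_le_add (hnp.trans e1) hpar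
    _ ≤ _ := by nlinarith

end Pool.Agent.Y316.SD
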