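import Pool.Agent.Y258.SD.Stmts
import Pool.Agent.H935R2.PS.A1

set_option autoImplicit false

/-!
# Star discrepancy in every dimension: the geometric double sum over dyadic boxes
-/

namespace Pool.Agent.Y316.SD

open Finset Pool.Agent.H935R2.PS Pool.Agent.Y258

/-! ### the base of the geometric sums -/

/-- `ρ = 2 ^ (-1/2)` -/
noncomputable def ρ : ℝ := √(1/2)

/-- `t = 2 ^ (-1/4)` -/
noncomputable def t4 : ℝ := √ρ

theorem ρ_pos : 0 < ρ := by unfold ρ; positivity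

theorem ρ_sq : ρ ^ 2 = 1/2 := Real.sq_sqrt (by norm_num)

theorem t4_pos : 0 < t4 := Real.sqrt_pos.mpr ρ_pos

theorem t4_sq : t4 ^ 2 = ρ := Real.sq_sqrt ρ_pos.le

theorem t4_four : t4 ^ 4 = 1/2 := by
  have h : t4 ^ 4 = (t4 ^ 2) ^ 2 := by ring
  rw [h, t4_sq, ρ_sq]

theorem t4_lt_one : t4 < 1 := by
  by_contra h
  have h2 : 1 ≤ t4 ^ 4 := one_le_pow₀ (not_lt.mp h)
  rw [t4_four] at h2
  norm_num at h2

theorem ρ_lt_one : ρ < 1 := by
  rw [← t4_sq]
  exact pow_lt_one₀ t4_pos.le t4_lt_one (by norm_num)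

/-- partial sums of the geometric series -/
theorem geom_le (x : ℝ) (h0 : 0 ≤ x) (h1 : x < 1) (n : ℕ) : ∑ i ∈ range n, x ^ i ≤ 1 / (1 - x) := by
  have h2 : 0 < 1 - x := by linarith
  rw [le_div_iff₀ h2]
  have h3 := geom_sum_mul x n
  have h4 : 0 ≤ x ^ n := pow_nonneg h0 n
  nlinarith

/-- the constant of the double sum -/
noncomputable def G4 : ℝ := (1 / (1 - t4)) ^ 2

theorem G4_nonneg : 0 ≤ G4 := sq_nonneg _

theorem two_pow_t4 (T : ℕ) : (2:ℝ) ^ T * t4 ^ (4 * T) = 1 := by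
  rw [pow_mul, t4_four, ← mul_pow]
  norm_num

/-- the double sum -/
theorem sumEJ (A P : ℝ) (T n m : ℕ) (hA : 0 ≤ A) (hP : P ≤ 2 ^ T) :
    ∑ e ∈ range n, ∑ j ∈ range m, min A (P * (ρ ^ j * ρ ^ e)) ≤ A * (4 * T) ^ 2 + G4 := by
  have key : ∀ e j : ℕ, min A (P * (ρ ^ j * ρ ^ e)) ≤
      (if e < 4 * T ∧ j < 4 * T then A else 0) + t4 ^ e * t4 ^ j := by
    intro e j
    have hp : 0 ≤ t4 ^ e * t4 ^ j := by have := t4_pos; positivity
    by_cases h : e < 4 * T ∧ j < 4 * T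
    · rw [if_pos h]
      exact (min_le_left _ _).trans (by linarith)
    · rw [if_neg h, zero_add]
      refine (min_le_right _ _).trans ?_
      have h1 : P * (ρ ^ j * ρ ^ e) ≤ 2 ^ T * (ρ ^ j * ρ ^ e) :=
        mul_le_mul_of_nonneg_right hP (by have := ρ_pos; positivity)
      refine h1.trans ?_
      have h2 : ρ ^ j * ρ ^ e = t4 ^ (e + j) * (t4 ^ e * t4 ^ j) := by
        rw [← t4_sq]
        ring
      rw [h2, ← mul_assoc]
      have h3 : t4 ^ (e + j) ≤ t4 ^ (4 * T) :=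
        pow_le_pow_of_le_one t4_pos.le t4_lt_one.le (by omega)
      have h4 : (2:ℝ) ^ T * t4 ^ (e + j) ≤ 1 := by
        calc (2:ℝ) ^ T * t4 ^ (e + j) ≤ 2 ^ T * t4 ^ (4 * T) :=
              mul_le_mul_of_nonneg_left h3 (by positivity)
          _ = 1 := two_pow_t4 T
      exact mul_le_of_le_one_left hp h4
  have h5 : ∑ e ∈ range n, ∑ j ∈ range m, min A (P * (ρ ^ j * ρ ^ e)) ≤
      ∑ e ∈ range n, ∑ j ∈ range m, ((if e < 4 * T ∧ j < 4 * T then A else 0) + t4 ^ e * t4 ^ j) :=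
    sum_le_sum fun e _ => sum_le_sum fun j _ => key e j
  refine h5.trans ?_
  have h6 : ∑ e ∈ range n, ∑ j ∈ range m, ((if e < 4 * T ∧ j < 4 * T then A else 0) + t4 ^ e * t4 ^ j)
      = (∑ e ∈ range n, ∑ j ∈ range m, (if e < 4 * T ∧ j < 4 * T then A else 0)) +
        (∑ e ∈ range n, t4 ^ e) * (∑ j ∈ range m, t4 ^ j) := by
    rw [sum_mul_sum, ← sum_add_distrib]
    exact sum_congr rfl fun e _ => sum_add_distrib
  rw [h6]
  have h7 : (∑ e ∈ range n, t4 ^ e) * (∑ j ∈ range m, t4 ^ j) ≤ G4 := by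
    unfold G4
    rw [pow_two]
    exact mul_le_mul (geom_le t4 t4_pos.le t4_lt_one n) (geom_le t4 t4_pos.le t4_lt_one m)
      (sum_nonneg fun _ _ => pow_nonneg t4_pos.le _) (by
        have : 0 < 1 - t4 := by linarith [t4_lt_one]
        positivity)
  have h8 : ∑ e ∈ range n, ∑ j ∈ range m, (if e < 4 * T ∧ j < 4 * T then A else 0) ≤
      A * (4 * T) ^ 2 := by
    rw [← sum_product', ← sum_filter, sum_const, nsmul_eq_mul]
    have h9 : ((range n ×ˢ range m).filter (fun p : ℕ × ℕ => p.1 < 4 * T ∧ p.2 < 4 * T)).card ≤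
        (4 * T) ^ 2 := by
      have h10 : (range n ×ˢ range m).filter (fun p : ℕ × ℕ => p.1 < 4 * T ∧ p.2 < 4 * T) ⊆
          range (4 * T) ×ˢ range (4 * T) := by
        intro p hp
        rw [mem_filter] at hp
        rw [mem_product, mem_range, mem_range]
        exact hp.2
      refine (card_le_card h10).trans ?_
      rw [card_product, card_range, pow_two]
    have h11 : ((((range n ×ˢ range m).filter
        (fun p : ℕ × ℕ => p.1 < 4 * T ∧ p.2 < 4 * T)).card : ℕ) : ℝ) ≤ (4 * T) ^ 2 := by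
      exact_mod_cast h9
    rw [mul_comm A]
    exact mul_le_mul_of_nonneg_right h11 hA
  linarith

/-! ### counting boxes -/

section boxes

variable {ι : Type} [Fintype ι] [DecidableEq ι]

/-- the dyadic boxes -/
def Bx (ι : Type) [Fintype ι] [DecidableEq ι] (L : ℕ) : Finset (ι → ℕ) :=
  Fintype.piFinset (fun _ : ι => range L)

theorem mem_Bx {L : ℕ} {b : ι → ℕ} : b ∈ Bx ι L ↔ ∀ a, b a < L := by
  unfold Bx
  rw [Fintype.mem_piFinset]
  simp only [mem_range]

theorem card_Bx (L : ℕ) : (Bx ι L).card = L ^ Fintype.card ι := by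
  unfold Bx
  rw [Fintype.card_piFinset]
  simp only [card_range, prod_const, card_univ]

/-- number of boxes with fixed sum -/
theorem fib1 (L s : ℕ) (a : ι) :
    ((Bx ι L).filter (fun b => ∑ i, b i = s)).card ≤ L ^ (Fintype.card ι - 1) := by
  have h1 : ((Bx ι L).filter (fun b => ∑ i, b i = s)).card ≤
      (Fintype.piFinset (fun i : ι => if i = a then {0} else range L)).card := by
    refine card_le_card_of_injOn (fun b => Function.update b a 0) ?_ ?_
    · intro b hb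
      rw [mem_coe, mem_filter, mem_Bx] at hb
      rw [mem_coe, Fintype.mem_piFinset]
      intro i
      by_cases hi : i = a
      · subst hi
        simp
      · rw [if_neg hi, mem_range]
        simp only [Function.update_of_ne hi]
        exact hb.1 i
    · intro b hb b' hb' hbb
      rw [mem_coe, mem_filter] at hb hb'
      have h2 : ∀ i, i ≠ a → b i = b' i := by
        intro i hi
        have := congrFun hbb i
        simpa only [Function.update_of_ne hi] using this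
      have h3 : b a = b' a := by
        have e1 := hb.2.trans hb'.2.symm
        rw [← add_sum_erase univ b (mem_univ a), ← add_sum_erase univ b' (mem_univ a)] at e1
        have e2 : ∑ i ∈ univ.erase a, b i = ∑ i ∈ univ.erase a, b' i :=
          sum_congr rfl fun i hi => h2 i (ne_of_mem_erase hi)
        omega
      funext i
      by_cases hi : i = a
      · rw [hi, h3]
      · exact h2 i hi
  refine h1.trans (le_of_eq ?_)
  rw [Fintype.card_piFinset]
  have h2 : ∀ i : ι, (if i = a then ({0} : Finset ℕ) else range L).card = if i = a then 1 else L := by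
    intro i
    split_ifs
    · rfl
    · exact card_range L
  rw [prod_congr rfl (fun i _ => h2 i), prod_ite, prod_const_one, one_mul, prod_const]
  congr 1
  rw [filter_ne' univ a, card_erase_of_mem (mem_univ a), card_univ]

/-- number of boxes with fixed sum and one fixed coordinate -/
theorem fib2 (L s m : ℕ) (a a' : ι) (haa : a' ≠ a) :
    ((Bx ι L).filter (fun b => b a = m ∧ ∑ i, b i = s)).card ≤ L ^ (Fintype.card ι - 2) := by
  have h1 : ((Bx ι L).filter (fun b => b a = m ∧ ∑ i, b i = s)).card ≤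
      (Fintype.piFinset (fun i : ι => if i = a ∨ i = a' then {0} else range L)).card := by
    refine card_le_card_of_injOn (fun b => Function.update (Function.update b a 0) a' 0) ?_ ?_
    · intro b hb
      rw [mem_coe, mem_filter, mem_Bx] at hb
      rw [mem_coe, Fintype.mem_piFinset]
      intro i
      by_cases hi' : i = a'
      · subst hi'
        simp
      · by_cases hi : i = a
        · subst hi
          simp [hi']
        · rw [if_neg (by tauto), mem_range]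
          simp only [Function.update_of_ne hi, Function.update_of_ne hi']
          exact hb.1 i
    · intro b hb b' hb' hbb
      rw [mem_coe, mem_filter] at hb hb'
      have h0 : b a = b' a := hb.2.1.trans hb'.2.1.symm
      have h2 : ∀ i, i ≠ a' → b i = b' i := by
        intro i hi'
        by_cases hi : i = a
        · rw [hi, h0]
        · have := congrFun hbb i
          simpa only [Function.update_of_ne hi, Function.update_of_ne hi'] using this
      have h3 : b a' = b' a' := by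
        have e1 := hb.2.2.trans hb'.2.2.symm
        rw [← add_sum_erase univ b (mem_univ a'), ← add_sum_erase univ b' (mem_univ a')] at e1
        have e2 : ∑ i ∈ univ.erase a', b i = ∑ i ∈ univ.erase a', b' i :=
          sum_congr rfl fun i hi => h2 i (ne_of_mem_erase hi)
        omega
      funext i
      by_cases hi : i = a'
      · rw [hi, h3]
      · exact h2 i hi
  refine h1.trans (le_of_eq ?_)
  rw [Fintype.card_piFinset]
  have h2 : ∀ i : ι, (if i = a ∨ i = a' then ({0} : Finset ℕ) else range L).card =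
      if i = a ∨ i = a' then 1 else L := by
    intro i
    split_ifs
    · rfl
    · exact card_range L
  rw [prod_congr rfl (fun i _ => h2 i), prod_ite, prod_const_one, one_mul, prod_const]
  congr 1
  have h3 : (univ.filter (fun i : ι => ¬ (i = a ∨ i = a'))) = (univ.erase a).erase a' := by
    ext i
    simp only [mem_filter, mem_univ, true_and, mem_erase, and_true]
    tauto
  rw [h3, card_erase_of_mem (mem_erase.mpr ⟨haa, mem_univ _⟩), card_erase_of_mem (mem_univ a),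
    card_univ]
  omega

/-- the sum over the boxes for one coordinate -/
theorem core1 (A P : ℝ) (T L E K0 : ℕ) (hA : 0 ≤ A) (hP0 : 0 ≤ P) (hP : P ≤ 2 ^ T) (a a' : ι)
    (haa : a' ≠ a) :
    ∑ b ∈ (Bx ι L).filter (fun b => E < ∑ i, b i + K0),
      min A (P * (ρ ^ (∑ i, b i + K0 - E) * ρ ^ (L - b a))) ≤
    (L:ℝ) ^ (Fintype.card ι - 2) * (A * (4 * T) ^ 2 + G4) := by
  classical
  set N := Fintype.card ι * L + K0 + 1 with hN
  have hmap : ∀ b ∈ (Bx ι L).filter (fun b => E < ∑ i, b i + K0),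
      (L - b a, ∑ i, b i + K0 - E) ∈ range (L + 1) ×ˢ range N := by
    intro b hb
    rw [mem_filter, mem_Bx] at hb
    rw [mem_product, mem_range, mem_range]
    have h1 : ∑ i, b i ≤ Fintype.card ι * L := by
      calc ∑ i, b i ≤ ∑ _i : ι, L := sum_le_sum fun i _ => (hb.1 i).le
        _ = Fintype.card ι * L := by rw [sum_const, card_univ, smul_eq_mul]
    dsimp only
    constructor <;> omega
  rw [← Finset.sum_fiberwise_of_maps_to hmap]
  have h1 : ∀ p ∈ range (L + 1) ×ˢ range N,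
      ∑ b ∈ ((Bx ι L).filter (fun b => E < ∑ i, b i + K0)).filter
        (fun b => (L - b a, ∑ i, b i + K0 - E) = p),
        min A (P * (ρ ^ (∑ i, b i + K0 - E) * ρ ^ (L - b a))) ≤
      (L:ℝ) ^ (Fintype.card ι - 2) * min A (P * (ρ ^ p.2 * ρ ^ p.1)) := by
    rintro ⟨e, j⟩ -
    have h2 : ∀ b ∈ ((Bx ι L).filter (fun b => E < ∑ i, b i + K0)).filter
        (fun b => (L - b a, ∑ i, b i + K0 - E) = (e, j)),
        min A (P * (ρ ^ (∑ i, b i + K0 - E) * ρ ^ (L - b a))) = min A (P * (ρ ^ j * ρ ^ e)) := by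
      intro b hb
      rw [mem_filter, Prod.mk.injEq] at hb
      rw [hb.2.1, hb.2.2]
    rw [sum_congr rfl h2, sum_const, nsmul_eq_mul]
    have hmin : 0 ≤ min A (P * (ρ ^ j * ρ ^ e)) :=
      le_min hA (by have := ρ_pos; positivity)
    refine mul_le_mul_of_nonneg_right ?_ hmin
    have h3 : ((Bx ι L).filter (fun b => E < ∑ i, b i + K0)).filter
        (fun b => (L - b a, ∑ i, b i + K0 - E) = (e, j)) ⊆
        (Bx ι L).filter (fun b => b a = L - e ∧ ∑ i, b i = j + E - K0) := by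
      intro b hb
      rw [mem_filter, mem_filter, Prod.mk.injEq] at hb
      rw [mem_filter]
      refine ⟨hb.1.1, ?_, ?_⟩
      · have := mem_Bx.mp hb.1.1 a
        omega
      · omega
    have h4 := (card_le_card h3).trans (fib2 L (j + E - K0) (L - e) a a' haa)
    exact_mod_cast h4
  refine (sum_le_sum h1).trans ?_
  rw [← mul_sum]
  refine mul_le_mul_of_nonneg_left ?_ (by positivity)
  rw [sum_product]
  exact sumEJ A P T (L + 1) N hA hP

end boxes

theorem min_sum_le {ι : Type} (s : Finset ι) (A x : ℝ) (y : ι → ℝ) (hA : 0 ≤ A) (hx : 0 ≤ x)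
    (hy : ∀ i ∈ s, 0 ≤ y i) : min A (x + ∑ i ∈ s, y i) ≤ x + ∑ i ∈ s, min A (y i) := by
  by_cases h : ∃ i ∈ s, A ≤ y i
  · obtain ⟨i, hi, hiA⟩ := h
    refine (min_le_left _ _).trans ?_
    have h1 : min A (y i) ≤ ∑ i ∈ s, min A (y i) :=
      single_le_sum (fun j hj => le_min hA (hy j hj)) hi
    rw [min_eq_left hiA] at h1
    linarith
  · push Not at h
    refine (min_le_right _ _).trans ?_
    have h1 : ∑ i ∈ s, y i = ∑ i ∈ s, min A (y i) :=
      sum_congr rfl fun i hi => (min_eq_right (h i hi).le).symm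
    rw [h1]

theorem uu_pos (q : ℕ) : 1 ≤ uu q := by
  unfold uu
  omega

/-- powers of `log q` are absorbed by the threshold -/
theorem absorb (C1 m q : ℕ) : (C1 : ℝ) * (La q : ℝ) ^ m ≤ 2 ^ ((C1 + m) * uu q) := by
  have h1 : (C1:ℝ) ≤ 2 ^ (C1 * uu q) := by
    have h2 : C1 ≤ 2 ^ C1 := Nat.lt_two_pow_self.le
    have h3 : 2 ^ C1 ≤ 2 ^ (C1 * uu q) :=
      Nat.pow_le_pow_right (by norm_num) (Nat.le_mul_of_pos_right _ (uu_pos q))
    exact_mod_cast h2.trans h3
  have h2 : (La q : ℝ) ^ m ≤ 2 ^ (m * uu q) := by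
    have h3 : La q ^ m ≤ (2 ^ uu q) ^ m := Nat.pow_le_pow_left (La_lt_uu q).le m
    rw [← pow_mul, mul_comm] at h3
    exact_mod_cast h3
  rw [add_mul, pow_add]
  exact mul_le_mul h1 h2 (by positivity) (by positivity)

open Classical in
/-- The core lemma: sums over dyadic boxes. -/
theorem core (κ C1 : ℕ) (hκ : 2 ≤ κ) : ∃ C : ℕ, ∀ q : ℕ, 2 ≤ q →
    ∀ (ι : Type) [Fintype ι] [DecidableEq ι], Fintype.card ι = κ → ∀ E K0 : ℕ,
    C * uu q ≤ K0 → ∀ W : (ι → ℕ) → ℝ, 
    (∀ b ∈ Bx ι (La q), E < ∑ i, b i + K0 → W b ≤ 2 ^ κ ∧ W b ≤ (C1 * (La q : ℝ) ^ C1) *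
      ((1/2) ^ K0 + ∑ a, ρ ^ (∑ i, b i + K0 - E) * ρ ^ (La q - b a))) →
    ∑ b ∈ (Bx ι (La q)).filter (fun b => E < ∑ i, b i + K0), W b ≤
      C * (La q : ℝ) ^ (κ - 2) * (uu q : ℝ) ^ 2 := by
  obtain ⟨C2, hC2⟩ := exists_nat_ge ((κ:ℝ) * (2 ^ κ * (4 * (C1 + C1 : ℕ)) ^ 2 + G4) + 1)
  refine ⟨C2 + (C1 + (C1 + κ)), ?_⟩
  intro q hq ι _ _ hι E K0 hK0 W hW
  set L := La q with hL
  set u := uu q with hu
  have hu1 : 1 ≤ u := uu_pos q
  have hL1 : 1 ≤ L := Nat.log_pos one_lt_two hq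
  set P : ℝ := C1 * (L : ℝ) ^ C1 with hP
  have hP0 : 0 ≤ P := by positivity
  have hPT : P ≤ 2 ^ ((C1 + C1) * u) := absorb C1 C1 q
  have hρ := ρ_pos
  have h1 : ∀ b ∈ (Bx ι L).filter (fun b => E < ∑ i, b i + K0), W b ≤
      P * (1/2) ^ K0 + ∑ a, min (2 ^ κ) (P * (ρ ^ (∑ i, b i + K0 - E) * ρ ^ (L - b a))) := by
    intro b hb
    rw [mem_filter] at hb
    obtain ⟨w1, w2⟩ := hW b hb.1 hb.2
    rw [mul_add, mul_sum] at w2
    exact (le_min w1 w2).trans (min_sum_le univ _ _ _ (by positivity) (by positivity)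
      (fun i _ => by positivity))
  refine (sum_le_sum h1).trans ?_
  rw [sum_add_distrib, sum_comm]
  have h2 : ∑ b ∈ (Bx ι L).filter (fun b => E < ∑ i, b i + K0), P * (1/2) ^ K0 ≤ 1 := by
    rw [sum_const, nsmul_eq_mul]
    have h3 : ((((Bx ι L).filter (fun b => E < ∑ i, b i + K0)).card : ℕ) : ℝ) ≤ (L:ℝ) ^ κ := by
      have h4 := card_filter_le (Bx ι L) (fun b => E < ∑ i, b i + K0)
      rw [card_Bx, hι] at h4
      exact_mod_cast h4
    calc ((((Bx ι L).filter (fun b => E < ∑ i, b i + K0)).card : ℕ) : ℝ) * (P * (1/2) ^ K0)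
        ≤ (L:ℝ) ^ κ * (P * (1/2) ^ K0) := mul_le_mul_of_nonneg_right h3 (by positivity)
      _ = (C1 * (L:ℝ) ^ (C1 + κ)) * (1/2) ^ K0 := by rw [hP, pow_add]; ring
      _ ≤ 2 ^ ((C1 + (C1 + κ)) * u) * (1/2) ^ K0 :=
          mul_le_mul_of_nonneg_right (absorb C1 (C1 + κ) q) (by positivity)
      _ ≤ 2 ^ K0 * (1/2) ^ K0 := by
          refine mul_le_mul_of_nonneg_right ?_ (by positivity)
          refine pow_le_pow_right₀ (by norm_num) ?_
          refine le_trans ?_ hK0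
          exact Nat.mul_le_mul_right _ (by omega)
      _ = 1 := by rw [← mul_pow]; norm_num
  have h3 : ∀ a : ι, ∑ b ∈ (Bx ι L).filter (fun b => E < ∑ i, b i + K0),
      min (2 ^ κ) (P * (ρ ^ (∑ i, b i + K0 - E) * ρ ^ (L - b a))) ≤
      (L:ℝ) ^ (κ - 2) * (2 ^ κ * (4 * ((C1 + C1) * u : ℕ)) ^ 2 + G4) := by
    intro a
    obtain ⟨a', ha'⟩ : ∃ a' : ι, a' ≠ a :=
      Fintype.exists_ne_of_one_lt_card (by omega) a
    have := core1 (2 ^ κ) P ((C1 + C1) * u) L E K0 (by positivity) hP0 hPT a a' ha'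
    rwa [hι] at this
  have h4 : ∑ a : ι, ∑ b ∈ (Bx ι L).filter (fun b => E < ∑ i, b i + K0),
      min (2 ^ κ) (P * (ρ ^ (∑ i, b i + K0 - E) * ρ ^ (L - b a))) ≤
      κ * ((L:ℝ) ^ (κ - 2) * (2 ^ κ * (4 * ((C1 + C1) * u : ℕ)) ^ 2 + G4)) := by
    refine (sum_le_sum fun a _ => h3 a).trans (le_of_eq ?_)
    rw [sum_const, card_univ, hι, nsmul_eq_mul]
  have hLr : (1:ℝ) ≤ (L:ℝ) ^ (κ - 2) := one_le_pow₀ (by exact_mod_cast hL1)
  have hur : (1:ℝ) ≤ (u:ℝ) ^ 2 := one_le_pow₀ (by exact_mod_cast hu1)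
  have hG := G4_nonneg
  have hLu : (0:ℝ) ≤ (L:ℝ) ^ (κ - 2) * (u:ℝ) ^ 2 := by positivity
  calc _ ≤ 1 + κ * ((L:ℝ) ^ (κ - 2) * (2 ^ κ * (4 * ((C1 + C1) * u : ℕ)) ^ 2 + G4)) :=
        add_le_add h2 h4
    _ ≤ (κ:ℝ) * ((L:ℝ) ^ (κ - 2) * ((2 ^ κ * (4 * (C1 + C1 : ℕ)) ^ 2 + G4) * (u:ℝ) ^ 2)) +
        (L:ℝ) ^ (κ - 2) * (u:ℝ) ^ 2 := by
        have e1 : (1:ℝ) ≤ (L:ℝ) ^ (κ - 2) * (u:ℝ) ^ 2 := one_le_mul_of_one_le_of_one_le hLr hur
        have e2 : (2:ℝ) ^ κ * (4 * ((C1 + C1) * u : ℕ)) ^ 2 + G4 ≤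
            (2 ^ κ * (4 * (C1 + C1 : ℕ)) ^ 2 + G4) * (u:ℝ) ^ 2 := by
          push_cast
          nlinarith
        have e3 : (κ:ℝ) * ((L:ℝ) ^ (κ - 2) * (2 ^ κ * (4 * ((C1 + C1) * u : ℕ)) ^ 2 + G4)) ≤
            (κ:ℝ) * ((L:ℝ) ^ (κ - 2) * ((2 ^ κ * (4 * (C1 + C1 : ℕ)) ^ 2 + G4) * (u:ℝ) ^ 2)) :=
          mul_le_mul_of_nonneg_left (mul_le_mul_of_nonneg_left e2 (by positivity)) (by positivity)
        linarith
    _ = ((κ:ℝ) * (2 ^ κ * (4 * (C1 + C1 : ℕ)) ^ 2 + G4) + 1) * ((L:ℝ) ^ (κ - 2) * (u:ℝ) ^ 2) := by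
        ring
    _ ≤ ((C2 + (C1 + (C1 + κ)) : ℕ) : ℝ) * ((L:ℝ) ^ (κ - 2) * (u:ℝ) ^ 2) := by
        refine mul_le_mul_of_nonneg_right ?_ hLu
        push_cast at hC2 ⊢
        have : (0:ℝ) ≤ (C1 + (C1 + κ)) := by positivity
        linarith
    _ = _ := by ring

end Pool.Agent.Y316.SD
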