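import Pool.Agent.Y316.SD.Core

set_option autoImplicit false

/-!
# Star discrepancy in every dimension: the sum over non-parallel neighbours
-/

namespace Pool.Agent.Y316.SD

open Finset Pool.Agent.H935R2.PS Pool.Agent.Y258

theorem first_term (q L κ D K0 sb sb' : ℕ) (τ : ℝ) (hL : (2:ℝ) ^ L ≤ q) (hD : D < κ)
    (hτ : τ * 2 ^ (K0 + sb') ≤ 2 ^ (D * L)) :
    (1 / 2 ^ sb) * ((2:ℝ) ^ (sb + sb') / (q:ℝ) ^ (κ - 1) * τ) ≤ (1/2) ^ K0 := by
  have hq : (0:ℝ) < q := lt_of_lt_of_le (by positivity) hL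
  have h1 : (2:ℝ) ^ (D * L) ≤ (q:ℝ) ^ (κ - 1) := by
    calc (2:ℝ) ^ (D * L) ≤ 2 ^ ((κ - 1) * L) :=
          pow_le_pow_right₀ (by norm_num) (Nat.mul_le_mul_right _ (by omega))
      _ = (2 ^ L) ^ (κ - 1) := by rw [← pow_mul, mul_comm]
      _ ≤ (q:ℝ) ^ (κ - 1) := pow_le_pow_left₀ (by positivity) hL _
  have h2 : (1 / 2 ^ sb) * ((2:ℝ) ^ (sb + sb') / (q:ℝ) ^ (κ - 1) * τ) =
      (τ * 2 ^ (K0 + sb')) / (q:ℝ) ^ (κ - 1) * (1/2) ^ K0 := by
    rw [pow_add, pow_add, one_div_pow]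
    field_simp
  rw [h2]
  refine mul_le_of_le_one_left (by positivity) ?_
  rw [div_le_one (by positivity)]
  exact hτ.trans h1

theorem second_term (q L D K0 sb sb' ba ba' : ℕ) (τ : ℝ) (hτ0 : 0 ≤ τ) (hτ1 : τ ≤ 1)
    (hL : (2:ℝ) ^ L ≤ q) (hE : D * L < sb + K0) (hba : ba ≤ L) (hba' : ba' ≤ L)
    (hτ : τ * 2 ^ (K0 + sb') ≤ 2 ^ (D * L)) :
    (1 / 2 ^ sb) * (√((2:ℝ) ^ (sb + sb')) * (√((2:ℝ) ^ (ba + ba')) / q) * τ) ≤
      ρ ^ (sb + K0 - D * L) * ρ ^ (L - ba) := by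
  have hq : (0:ℝ) < q := lt_of_lt_of_le (by positivity) hL
  have hρ := ρ_pos
  have hr : 0 ≤ ρ ^ (sb + K0 - D * L) * ρ ^ (L - ba) := by positivity
  refine le_of_sq_le_sq ?_ hr
  have e1 : ((1 / 2 ^ sb) * (√((2:ℝ) ^ (sb + sb')) * (√((2:ℝ) ^ (ba + ba')) / q) * τ)) ^ 2 =
      (1 / 2 ^ sb) ^ 2 * (2 ^ (sb + sb') * (2 ^ (ba + ba') / (q:ℝ) ^ 2) * τ ^ 2) := by
    have s1 : √((2:ℝ) ^ (sb + sb')) ^ 2 = 2 ^ (sb + sb') := Real.sq_sqrt (by positivity)
    have s2 : √((2:ℝ) ^ (ba + ba')) ^ 2 = 2 ^ (ba + ba') := Real.sq_sqrt (by positivity)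
    rw [mul_pow, mul_pow, mul_pow, div_pow (√((2:ℝ) ^ (ba + ba'))), s1, s2]
  have e2 : (ρ ^ (sb + K0 - D * L) * ρ ^ (L - ba)) ^ 2 =
      1 / 2 ^ (sb + K0 - D * L + (L - ba)) := by
    rw [← pow_add, ← pow_mul, mul_comm, pow_mul, ρ_sq, one_div_pow]
  rw [e1, e2, le_div_iff₀ (by positivity)]
  have h1 : τ ^ 2 ≤ τ := by
    rw [pow_two]
    exact mul_le_of_le_one_left hτ0 hτ1
  have h2 : (2:ℝ) ^ (2 * L) ≤ (q:ℝ) ^ 2 := by
    rw [mul_comm, pow_mul]
    exact pow_le_pow_left₀ (by positivity) hL 2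
  have h3 : (1 / 2 ^ sb) ^ 2 * (2 ^ (sb + sb') * (2 ^ (ba + ba') / (q:ℝ) ^ 2) * τ ^ 2) *
      2 ^ (sb + K0 - D * L + (L - ba)) ≤
      (1 / 2 ^ sb) ^ 2 * (2 ^ (sb + sb') * (2 ^ (ba + ba') / (2:ℝ) ^ (2 * L)) * τ) *
      2 ^ (sb + K0 - D * L + (L - ba)) := by
    gcongr
  refine h3.trans ?_
  have h4 : (1 / 2 ^ sb) ^ 2 * (2 ^ (sb + sb') * (2 ^ (ba + ba') / (2:ℝ) ^ (2 * L)) * τ) *
      2 ^ (sb + K0 - D * L + (L - ba)) =
      (τ * 2 ^ (K0 + sb')) * (2 ^ (ba + ba' + (sb + K0 - D * L + (L - ba))) /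
        2 ^ (sb + K0 + 2 * L)) := by
    simp only [pow_add]
    field_simp
  rw [h4]
  calc (τ * 2 ^ (K0 + sb')) * (2 ^ (ba + ba' + (sb + K0 - D * L + (L - ba))) /
        2 ^ (sb + K0 + 2 * L))
      ≤ 2 ^ (D * L) * (2 ^ (ba + ba' + (sb + K0 - D * L + (L - ba))) /
        2 ^ (sb + K0 + 2 * L)) := mul_le_mul_of_nonneg_right hτ (by positivity)
    _ = 2 ^ (D * L + (ba + ba' + (sb + K0 - D * L + (L - ba)))) / 2 ^ (sb + K0 + 2 * L) := by
        rw [pow_add 2 (D * L)]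
        ring
    _ ≤ 1 := by
        rw [div_le_one (by positivity)]
        exact pow_le_pow_right₀ (by norm_num) (by omega)

section

variable {q : ℕ} [Fact q.Prime] {ι : Type} [Fintype ι] [DecidableEq ι]

open Classical in
/-- number of vectors in a dyadic box -/
theorem card_box (b : ι → ℕ) :
    ((univ : Finset (ι → ZMod q)).filter (fun h => ∀ a, h a ≠ 0 ∧ dl (h a) = b a)).card ≤
      2 ^ Fintype.card ι * 2 ^ (∑ a, b a) := by
  have h1 : (univ : Finset (ι → ZMod q)).filter (fun h => ∀ a, h a ≠ 0 ∧ dl (h a) = b a) ⊆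
      Fintype.piFinset (fun a => (univ : Finset (ZMod q)).filter (fun x => x ≠ 0 ∧ dl x = b a)) := by
    intro h hh
    rw [mem_filter] at hh
    rw [Fintype.mem_piFinset]
    intro a
    rw [mem_filter]
    exact ⟨mem_univ _, hh.2 a⟩
  refine (card_le_card h1).trans ?_
  rw [Fintype.card_piFinset]
  calc ∏ a, ((univ : Finset (ZMod q)).filter (fun x => x ≠ 0 ∧ dl x = b a)).card
      ≤ ∏ a, 2 ^ (b a + 1) := prod_le_prod (fun _ _ => Nat.zero_le _) (fun a _ => card_dl (b a))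
    _ = 2 ^ Fintype.card ι * 2 ^ (∑ a, b a) := by
        rw [prod_pow_eq_pow_sum, sum_add_distrib, sum_const, card_univ, smul_eq_mul, mul_one,
          pow_add, mul_comm]

omit [Fact q.Prime] [DecidableEq ι] in
theorem wt_nonneg (h : ι → ZMod q) : 0 ≤ wt h := prod_nonneg fun a _ => by positivity

omit [DecidableEq ι] in
theorem wt_le (h : ι → ZMod q) (h0 : ∀ a, h a ≠ 0) : wt h ≤ 1 / 2 ^ (∑ a, dl (h a)) := by
  unfold wt
  rw [← prod_pow_eq_pow_sum, one_div, ← prod_inv_distrib]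
  refine prod_le_prod (fun a _ => by positivity) (fun a _ => ?_)
  rw [one_div]
  refine inv_anti₀ (by positivity) ?_
  exact_mod_cast two_pow_dl_le (h a) (h0 a)

end

open Classical in
/-- The neighbour sum over the multiples which are not parallel. -/
theorem nbr (hA1 : St_A1) (κ : ℕ) (hκ : 2 ≤ κ) : ∃ C : ℕ, ∀ (q : ℕ) [Fact q.Prime], Suit q →
    C ≤ q → ∀ (ι : Type) [Fintype ι] [DecidableEq ι], Fintype.card ι = κ → ∀ D K0 : ℕ, D < κ →
    C * uu q ≤ K0 → ∀ τ : (ι → ℕ) → ℝ, (∀ b, 0 ≤ τ b) → (∀ b, τ b ≤ 1) →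
    (∀ b, τ b * 2 ^ (K0 + ∑ a, b a) ≤ 2 ^ (D * La q)) →
    ∀ S : Finset (ι → ZMod q), (∀ h ∈ S, ∀ a, h a ≠ 0) → (∀ h ∈ S, ¬ Bd D K0 h) →
    ∀ f : (ι → ZMod q) → ℝ, (∀ h ∈ S, 0 ≤ f h) → (∀ h ∈ S, f h ≤ 1) →
    (∀ h ∈ S, f h ≤ ∑ c ∈ (univ : Finset (ZMod q)).filter
      (fun c => c ≠ 0 ∧ ¬ Prl h (fun a => c * h a)), τ (fun a => dl (c * h a))) →
    ∑ h ∈ S, wt h * f h ≤ C * (La q : ℝ) ^ (κ - 2) * (uu q : ℝ) ^ 2 := by
  obtain ⟨C0, hC0⟩ := hA1 κ hκ
  obtain ⟨C1, hC1⟩ := core κ (C0 + κ) hκ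
  refine ⟨C0 + C1 + 2, ?_⟩
  intro q _ hSuit hq ι _ _ hι D K0 hD hK0 τ hτ0 hτ1 hτ S hS0 hSB f hf0 hf1 hf
  set L := La q with hL
  have hq2 : 2 ≤ q := by omega
  have hL1 : 1 ≤ L := Nat.log_pos one_lt_two hq2
  have h2L : (2:ℝ) ^ L ≤ q := by exact_mod_cast La_le (q := q)
  set W : (ι → ℕ) → ℝ := fun b => ∑ h ∈ S.filter (fun h => (fun a => dl (h a)) = b), wt h * f h
    with hW
  have hmap : ∀ h ∈ S, (fun a => dl (h a)) ∈ (Bx ι L).filter (fun b => D * L < ∑ i, b i + K0) := by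
    intro h hh
    rw [mem_filter, mem_Bx]
    refine ⟨fun a => dl_lt hq2 _ (hS0 h hh a), ?_⟩
    have h1 := hSB h hh
    unfold Bd sz at h1
    exact not_le.mp h1
  rw [← Finset.sum_fiberwise_of_maps_to hmap]
  have hwt : ∀ b, ∀ h ∈ S.filter (fun h => (fun a => dl (h a)) = b), wt h ≤ 1 / 2 ^ (∑ a, b a) := by
    intro b h hh
    rw [mem_filter] at hh
    have := wt_le h (hS0 h hh.1)
    rwa [← hh.2]
  have hsub : ∀ b, S.filter (fun h => (fun a => dl (h a)) = b) ⊆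
      (univ : Finset (ι → ZMod q)).filter (fun h => ∀ a, h a ≠ 0 ∧ dl (h a) = b a) := by
    intro b h hh
    rw [mem_filter] at hh
    rw [mem_filter]
    exact ⟨mem_univ _, fun a => ⟨hS0 h hh.1 a, congrFun hh.2 a⟩⟩
  have hmain := hC1 q hq2 ι hι (D * L) K0 (le_trans (Nat.mul_le_mul_right _ (by omega)) hK0) W ?_
  · refine hmain.trans ?_
    have : (C1:ℝ) ≤ ((C0 + C1 + 2 : ℕ) : ℝ) := by push_cast; linarith [(Nat.cast_nonneg C0 : (0:ℝ) ≤ C0)]
    gcongr
  intro b hb hE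
  constructor
  · -- trivial bound
    calc W b ≤ ∑ h ∈ S.filter (fun h => (fun a => dl (h a)) = b), 1 / 2 ^ (∑ a, b a) := by
          refine sum_le_sum fun h hh => ?_
          have hh' := (mem_filter.mp hh).1
          calc wt h * f h ≤ wt h * 1 := mul_le_mul_of_nonneg_left (hf1 h hh') (wt_nonneg h)
            _ ≤ _ := by rw [mul_one]; exact hwt b h hh
      _ = ((S.filter (fun h => (fun a => dl (h a)) = b)).card : ℝ) * (1 / 2 ^ (∑ a, b a)) := by
          rw [sum_const, nsmul_eq_mul]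
      _ ≤ (2 ^ κ * 2 ^ (∑ a, b a)) * (1 / 2 ^ (∑ a, b a)) := by
          refine mul_le_mul_of_nonneg_right ?_ (by positivity)
          have h1 := (card_le_card (hsub b)).trans (card_box (q := q) b)
          rw [hι] at h1
          exact_mod_cast h1
      _ = 2 ^ κ := by field_simp
  · -- the bound from the pair count
    have h1 : W b ≤ (1 / 2 ^ (∑ a, b a)) * ∑ b' ∈ Bx ι L, ((NP (q := q) b b').card : ℝ) * τ b' := by
      calc W b ≤ ∑ h ∈ S.filter (fun h => (fun a => dl (h a)) = b), (1 / 2 ^ (∑ a, b a)) *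
            ∑ c ∈ (univ : Finset (ZMod q)).filter
              (fun c => c ≠ 0 ∧ ¬ Prl h (fun a => c * h a)), τ (fun a => dl (c * h a)) := by
            refine sum_le_sum fun h hh => ?_
            have hh' := (mem_filter.mp hh).1
            exact mul_le_mul (hwt b h hh) (hf h hh') (hf0 h hh') (by positivity)
        _ = (1 / 2 ^ (∑ a, b a)) * ∑ h ∈ S.filter (fun h => (fun a => dl (h a)) = b),
            ∑ c ∈ (univ : Finset (ZMod q)).filter
              (fun c => c ≠ 0 ∧ ¬ Prl h (fun a => c * h a)), τ (fun a => dl (c * h a)) := by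
            rw [mul_sum]
        _ ≤ _ := by
            refine mul_le_mul_of_nonneg_left ?_ (by positivity)
            have h2 : ∑ h ∈ S.filter (fun h => (fun a => dl (h a)) = b),
                ∑ c ∈ (univ : Finset (ZMod q)).filter
                (fun c => c ≠ 0 ∧ ¬ Prl h (fun a => c * h a)), τ (fun a => dl (c * h a)) ≤
                ∑ h ∈ (univ : Finset (ι → ZMod q)).filter (fun h => ∀ a, h a ≠ 0 ∧ dl (h a) = b a),
                ∑ c ∈ (univ : Finset (ZMod q)).filter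
                (fun c => c ≠ 0 ∧ ¬ Prl h (fun a => c * h a)), τ (fun a => dl (c * h a)) :=
              sum_le_sum_of_subset_of_nonneg (hsub b)
                (fun h _ _ => sum_nonneg fun c _ => hτ0 _)
            refine h2.trans (le_of_eq ?_)
            set Q : Finset ((ι → ZMod q) × ZMod q) := univ.filter (fun p =>
              (∀ a, p.1 a ≠ 0 ∧ dl (p.1 a) = b a) ∧ (p.2 ≠ 0 ∧ ¬ Prl p.1 (fun a => p.2 * p.1 a)))
              with hQ
            have h3 : ∑ h ∈ (univ : Finset (ι → ZMod q)).filter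
                (fun h => ∀ a, h a ≠ 0 ∧ dl (h a) = b a),
                ∑ c ∈ (univ : Finset (ZMod q)).filter
                (fun c => c ≠ 0 ∧ ¬ Prl h (fun a => c * h a)), τ (fun a => dl (c * h a)) =
                ∑ p ∈ Q, τ (fun a => dl (p.2 * p.1 a)) := by
              rw [hQ, sum_filter, sum_filter, Fintype.sum_prod_type]
              refine sum_congr rfl fun h _ => ?_
              rw [sum_filter]
              by_cases hc : ∀ a, h a ≠ 0 ∧ dl (h a) = b a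
              · rw [if_pos hc]
                refine sum_congr rfl fun c _ => if_congr ?_ rfl rfl
                exact ⟨fun h5 => ⟨hc, h5⟩, fun h5 => h5.2⟩
              · rw [if_neg hc]
                symm
                refine sum_eq_zero fun c _ => ?_
                rw [if_neg]
                intro hcc
                exact hc hcc.1
            rw [h3]
            have hmapQ : ∀ p ∈ Q, (fun a => dl (p.2 * p.1 a)) ∈ Bx ι L := by
              intro p hp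
              rw [hQ, mem_filter] at hp
              rw [mem_Bx]
              intro a
              exact dl_lt hq2 _ (mul_ne_zero hp.2.2.1 (hp.2.1 a).1)
            rw [← Finset.sum_fiberwise_of_maps_to hmapQ]
            refine sum_congr rfl fun b' _ => ?_
            have h4 : ∀ p ∈ Q.filter (fun p => (fun a => dl (p.2 * p.1 a)) = b'),
                τ (fun a => dl (p.2 * p.1 a)) = τ b' := by
              intro p hp
              rw [(mem_filter.mp hp).2]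
            rw [sum_congr rfl h4, sum_const, nsmul_eq_mul]
            congr 2
            rw [hQ, filter_filter]
            unfold NP
            refine congrArg Finset.card ?_
            ext p
            rw [mem_filter, mem_filter]
            constructor
            · rintro ⟨-, ⟨h5, h6, h7⟩, h8⟩
              exact ⟨mem_univ _, h6, fun a => ⟨(h5 a).1, (h5 a).2, congrFun h8 a⟩, h7⟩
            · rintro ⟨-, h6, h5, h7⟩
              exact ⟨mem_univ _, ⟨fun a => ⟨(h5 a).1, (h5 a).2.1⟩, h6, h7⟩,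
                funext fun a => (h5 a).2.2⟩
    refine h1.trans ?_
    rw [mul_sum]
    have h2 : ∀ b' ∈ Bx ι L, (1 / 2 ^ (∑ a, b a)) * (((NP (q := q) b b').card : ℝ) * τ b') ≤
        (C0 * (L:ℝ) ^ C0) *
          ((1/2) ^ K0 + ∑ a, ρ ^ (∑ i, b i + K0 - D * L) * ρ ^ (L - b a)) := by
      intro b' hb'
      have hA := hC0 q hSuit (by omega) ι hι b b'
      rw [sum_add_distrib] at hA
      have hCL : (0:ℝ) ≤ C0 * (L:ℝ) ^ C0 := by positivity
      calc (1 / 2 ^ (∑ a, b a)) * (((NP (q := q) b b').card : ℝ) * τ b')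
          ≤ (1 / 2 ^ (∑ a, b a)) * ((C0 * (L : ℝ) ^ C0 *
            ((2:ℝ) ^ (∑ a, b a + ∑ a, b' a) / (q:ℝ) ^ (κ - 1) +
              √((2:ℝ) ^ (∑ a, b a + ∑ a, b' a)) * ∑ a, √((2:ℝ) ^ (b a + b' a)) / q)) * τ b') := by
            have := hτ0 b'
            gcongr
        _ = (C0 * (L : ℝ) ^ C0) * ((1 / 2 ^ (∑ a, b a)) *
              ((2:ℝ) ^ (∑ a, b a + ∑ a, b' a) / (q:ℝ) ^ (κ - 1) * τ b') +
              ∑ a, (1 / 2 ^ (∑ a, b a)) *
              (√((2:ℝ) ^ (∑ a, b a + ∑ a, b' a)) * (√((2:ℝ) ^ (b a + b' a)) / q) * τ b')) := by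
            rw [← mul_sum, ← sum_mul, ← mul_sum]
            ring
        _ ≤ (C0 * (L : ℝ) ^ C0) *
            ((1/2) ^ K0 + ∑ a, ρ ^ (∑ i, b i + K0 - D * L) * ρ ^ (L - b a)) := by
            refine mul_le_mul_of_nonneg_left (add_le_add ?_ (sum_le_sum fun a _ => ?_)) hCL
            · exact first_term q L κ D K0 _ _ _ h2L hD (hτ b')
            · exact second_term q L D K0 _ _ _ _ _ (hτ0 b') (hτ1 b') h2L hE
                (mem_Bx.mp hb a).le (mem_Bx.mp hb' a).le (hτ b')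
    refine (sum_le_sum h2).trans ?_
    rw [sum_const, nsmul_eq_mul, card_Bx, hι]
    have hρ := ρ_pos
    set X : ℝ := (1/2) ^ K0 + ∑ a, ρ ^ (∑ i, b i + K0 - D * L) * ρ ^ (L - b a) with hX
    have hX0 : 0 ≤ X := by positivity
    calc ((L ^ κ : ℕ) : ℝ) * ((C0 * (L:ℝ) ^ C0) * X) = (C0 : ℝ) * (L:ℝ) ^ (C0 + κ) * X := by
          push_cast
          rw [pow_add]
          ring
      _ ≤ ((C0 + κ : ℕ) : ℝ) * (L:ℝ) ^ (C0 + κ) * X := by
          have : (C0:ℝ) ≤ ((C0 + κ : ℕ) : ℝ) := by exact_mod_cast Nat.le_add_right _ _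
          gcongr

end Pool.Agent.Y316.SD
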